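import Pool.Agent.H867.FT.Gen10

set_option autoImplicit false

namespace Pool.Agent.H224.FT867STA

open Pool.Agent.H867.FT

theorem sta : Pool.Agent.H867.FT.S_STA := by
  intro p hp R S _ _ _ _ ι hψ a b N hb hw
  by_contra hcon
  push Not at hcon
  -- the ideal of denominators
  let I : Ideal S :=
    { carrier := {y | ∃ a', y * a = b * a'}
      add_mem' := by
        rintro y z ⟨y', hy⟩ ⟨z', hz⟩
        exact ⟨y' + z', by rw [add_mul, hy, hz, mul_add]⟩
      zero_mem' := ⟨0, by rw [zero_mul, mul_zero]⟩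
      smul_mem' := by
        rintro c y ⟨y', hy⟩
        exact ⟨c * y', by rw [smul_eq_mul, mul_assoc, hy]; ring⟩ }
  have hI : ∀ y, y ∈ I ↔ ∃ a', y * a = b * a' := fun y => Iff.rfl
  have hdis : Disjoint (I : Set S) ((nonZeroDivisors R).map ι : Submonoid S) := by
    rw [Set.disjoint_left]
    rintro y hy ⟨r, hr, rfl⟩
    obtain ⟨a', ha'⟩ := (hI _).mp hy
    exact hcon r a' (nonZeroDivisors.ne_zero hr) ha'
  obtain ⟨𝔮, hq, hIq, hqd⟩ := Ideal.exists_le_prime_disjoint I _ hdis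
  have hc𝔮 : ∀ c : R, c ≠ 0 → ι c ∉ 𝔮 := by
    intro c hc h
    exact Set.disjoint_left.mp hqd h ⟨c, mem_nonZeroDivisors_of_ne_zero hc, rfl⟩
  -- `b ^ N` vanishes in the localization
  let L := Localization.AtPrime 𝔮
  have hmem : ∀ e : ℕ, algebraMap S L (b ^ N) ∈ IsLocalRing.maximalIdeal L ^ e := by
    intro e
    obtain ⟨n, u, ψ, c, hc, hcar, hsum⟩ := hψ e
    obtain ⟨w, hw'⟩ := hw (p ^ e)
    have h1 : ∀ j, ψ j (b ^ N) ∈ 𝔮 := by
      intro j
      apply hIq
      refine (hI _).mpr ⟨ψ j w, ?_⟩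
      have h2 := hcar j a (b ^ N)
      have h3 := hcar j b w
      rw [mul_comm (a ^ p ^ e), hw', h3] at h2
      rw [mul_comm, ← h2]
    have h2 : ι c ^ p ^ e * b ^ N ∈ 𝔮 ^ p ^ e := by
      rw [hsum]
      exact Ideal.sum_mem _ fun j _ => Ideal.mul_mem_right _ _ (Ideal.pow_mem_pow (h1 j) _)
    have h3 : algebraMap S L (ι c ^ p ^ e * b ^ N) ∈ IsLocalRing.maximalIdeal L ^ p ^ e := by
      have h4 := Ideal.mem_map_of_mem (algebraMap S L) h2
      rw [Ideal.map_pow, Localization.AtPrime.map_eq_maximalIdeal] at h4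
      exact h4
    have h5 : IsUnit (algebraMap S L (ι c ^ p ^ e)) := by
      refine IsLocalization.map_units L (⟨ι c ^ p ^ e, ?_⟩ : 𝔮.primeCompl)
      exact fun h => hc𝔮 c hc (hq.mem_of_pow_mem _ h)
    rw [map_mul] at h3
    have h6 := (Ideal.unit_mul_mem_iff_mem _ h5).mp h3
    exact Ideal.pow_le_pow_right (Nat.lt_pow_self hp.out.one_lt).le h6
  have hzero : algebraMap S L (b ^ N) = 0 := by
    have h1 : algebraMap S L (b ^ N) ∈ (⨅ e : ℕ, IsLocalRing.maximalIdeal L ^ e) := by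
      rw [Ideal.mem_iInf]
      exact hmem
    rw [Ideal.iInf_pow_eq_bot_of_isLocalRing _ Ideal.IsPrime.ne_top'] at h1
    exact h1
  obtain ⟨s, hs⟩ := (IsLocalization.map_eq_zero_iff 𝔮.primeCompl L (b ^ N)).mp hzero
  have hpow : ∀ (M : ℕ) (x : S), b ^ M * x = 0 → x = 0 := by
    intro M
    induction M with
    | zero => intro x hx; simpa using hx
    | succ M ih =>
      intro x hx
      rw [pow_succ, mul_assoc] at hx
      exact hb x (ih _ hx)
  have hs0 : (s : S) = 0 := hpow N _ (by rw [mul_comm]; exact hs)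
  exact s.2 (by rw [hs0]; exact 𝔮.zero_mem)

end Pool.Agent.H224.FT867STA
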